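import Pool.Agent.Q209.EM.Mom
import Pool.Agent.Q54.EM.StmE

/-!
Project EM: the lower and the upper tail lemma (KAP, THE).
-/

set_option autoImplicit false

namespace Pool.Agent.Q209.EM

open Finset
open Pool.Agent.Q54.EM

/-- the numerical part of KAP -/
theorem kap_num (D s m : ℝ) (hD : 2 / 5 < D) (hD' : D ≤ 7 / 5) (hs : 0 ≤ s) (hm : 0 ≤ m)
    (hsm : s + m ≤ 66 / 1000) : D + s / (2 * D) ≤ 3 / 2 * ((D - m) ^ 2 / (s + (D - m) ^ 2)) := by
  have hμ : 0 < D - m := by linarith
  have h1 : (2 * D ^ 2 + s) * (s + (D - m) ^ 2) ≤ 3 * D * (D - m) ^ 2 := by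
    have h2 : (D - 66 / 1000) ^ 2 ≤ (D - m) ^ 2 := by
      apply pow_le_pow_left₀ (by linarith)
      linarith
    have h3 : 0 ≤ 3 * D - 2 * D ^ 2 - 66 / 1000 := by nlinarith
    have h4 : (2 * D ^ 2 + 66 / 1000) * (66 / 1000) ≤
        (D - 66 / 1000) ^ 2 * (3 * D - 2 * D ^ 2 - 66 / 1000) := by
      nlinarith [mul_nonneg (sub_nonneg.2 hD.le) (sub_nonneg.2 hD'), sq_nonneg (D - 1),
        mul_nonneg (mul_nonneg (sub_nonneg.2 hD.le) (sub_nonneg.2 hD')) (sq_nonneg (D - 1)),
        mul_nonneg (mul_nonneg (sub_nonneg.2 hD.le) (sub_nonneg.2 hD')) (sub_nonneg.2 hD.le),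
        mul_nonneg (mul_nonneg (sub_nonneg.2 hD.le) (sub_nonneg.2 hD')) (sub_nonneg.2 hD')]
    have h5 : (D - 66 / 1000) ^ 2 * (3 * D - 2 * D ^ 2 - 66 / 1000) ≤
        (D - m) ^ 2 * (3 * D - 2 * D ^ 2 - s) := by
      apply mul_le_mul h2 (by linarith) h3 (by positivity)
    have h6 : (2 * D ^ 2 + s) * s ≤ (2 * D ^ 2 + 66 / 1000) * (66 / 1000) := by
      apply mul_le_mul (by linarith) (by linarith) hs (by positivity)
    nlinarith
  have h7 : D + s / (2 * D) = (2 * D ^ 2 + s) / (2 * D) := by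
    field_simp
  have h8 : 0 < s + (D - m) ^ 2 := by positivity
  rw [h7, ← mul_div_assoc, div_le_div_iff₀ (by linarith) h8]
  nlinarith

theorem kap (hE : S_EEL) : S_KAP := by
  intro ι _ p x n hp0 hp hx hm hn j
  obtain ⟨v2, hv2⟩ : ∃ v2, v2 = ∑ i, p i * (x i - 1) ^ 2 := ⟨_, rfl⟩
  obtain ⟨m1, hm1⟩ : ∃ m1, m1 = ∑ i, p i * x i := ⟨_, rfl⟩
  have hv0 : 0 ≤ v2 := by
    rw [hv2]
    exact Finset.sum_nonneg fun i _ => mul_nonneg (hp0 i) (sq_nonneg _)
  rw [← hv2, ← hm1] at hn
  rw [← hm1] at hm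
  induction j with
  | zero =>
    intro y _ hy
    simp only [GP, PR, EE]
    norm_num at hy
    by_cases h : 0 < y
    · rw [if_pos h, sub_zero, max_eq_left h.le]
      linarith
    · rw [if_neg h, sub_zero, max_eq_right (not_lt.1 h)]
      norm_num
  | succ j ih =>
    intro y hj hy
    push_cast at hy
    by_cases hD : y ≤ j + 7 / 5
    · have h1 : GP p x (j + 1) y = ∑ i, p i * GP p x j (y - x i) := by
        simp only [GP, EE]
        refine Finset.sum_congr rfl fun i _ => ?_
        congr 2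
        funext s
        congr 1
        ring
      have h2 : PR p x (j + 1) y = ∑ i, p i * PR p x j (y - x i) := by
        simp only [PR, EE]
        refine Finset.sum_congr rfl fun i _ => ?_
        congr 2
        funext s
        congr 1
        rw [lt_sub_iff_add_lt]
      rw [h1, h2, Finset.mul_sum]
      refine Finset.sum_le_sum fun i _ => ?_
      have h3 := ih (y - x i) (by omega) (by linarith [hx i])
      calc p i * GP p x j (y - x i) ≤ p i * (3 / 2 * PR p x j (y - x i)) :=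
            mul_le_mul_of_nonneg_left h3 (hp0 i)
        _ = 3 / 2 * (p i * PR p x j (y - x i)) := by ring
    · push Not at hD
      obtain ⟨N, hN⟩ : ∃ N : ℝ, N = ((j + 1 : ℕ) : ℝ) := ⟨_, rfl⟩
      have hN' : N = j + 1 := by rw [hN]; push_cast; ring
      have hN0 : 0 ≤ N := by rw [hN]; positivity
      have hNn : N ≤ n := by rw [hN]; exact_mod_cast hj
      obtain ⟨D, hDd⟩ : ∃ D, D = y - N := ⟨_, rfl⟩
      have hsm : N * v2 + N * (m1 - 1) ≤ 66 / 1000 := by
        have h1 : N * (v2 + (m1 - 1)) ≤ n * (v2 + (m1 - 1)) :=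
          mul_le_mul_of_nonneg_right hNn (by linarith)
        linarith
      have hs : 0 ≤ N * v2 := mul_nonneg hN0 hv0
      have hm' : 0 ≤ N * (m1 - 1) := mul_nonneg hN0 (by linarith)
      have hD1 : 2 / 5 < D := by rw [hDd, hN']; linarith
      have hD2 : D ≤ 7 / 5 := by rw [hDd, hN']; linarith
      have hnum := kap_num D (N * v2) (N * (m1 - 1)) hD1 hD2 hs hm' hsm
      have hvar : N * (v2 - (m1 - 1) ^ 2) ≤ N * v2 := by
        have : 0 ≤ N * (m1 - 1) ^ 2 := mul_nonneg hN0 (sq_nonneg _)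
        linarith
      have hyM : y - N * m1 = D - N * (m1 - 1) := by rw [hDd]; ring
      have hcan := cantelli' hE hp0 hp hx (j + 1) (y := y) hs (by
        rw [← hv2, ← hm1, ← hN]
        exact hvar) (by
        rw [← hm1, ← hN]
        linarith)
      rw [← hm1, ← hN, hyM] at hcan
      have hGP : GP p x (j + 1) y ≤ D + N * v2 / (2 * D) := by
        have hD0 : 0 < D := by linarith
        have h1 : GP p x (j + 1) y ≤
            EE p x (j + 1) (fun s => (2 * D)⁻¹ * ((s + -y) ^ 2 + D ^ 2)) := by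
          refine ee_mono hE hp0 hx _ fun s _ => ?_
          have h2 : 0 ≤ (2 * D)⁻¹ * ((s + -y) ^ 2 + D ^ 2) := by positivity
          refine max_le ?_ h2
          rw [inv_mul_eq_div, le_div_iff₀ (by positivity)]
          nlinarith [sq_nonneg (s + -y + D)]
        refine h1.trans ?_
        rw [ee_smul hE, ee_add hE _ (fun s => (s + -y) ^ 2) (fun _ => D ^ 2), ee_sq hp,
          ee_one hE hp, ← hv2, ← hm1, ← hN]
        have h3 : N * m1 + -y = -(D - N * (m1 - 1)) := by rw [← hyM]; ring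
        rw [h3, neg_sq, inv_mul_eq_div, div_le_iff₀ (by positivity)]
        have h4 : (D + N * v2 / (2 * D)) * (2 * D) = 2 * D ^ 2 + N * v2 := by
          field_simp
        rw [h4]
        have h5 : (D - N * (m1 - 1)) ^ 2 ≤ D ^ 2 := by
          apply pow_le_pow_left₀ (by linarith)
          linarith
        linarith
      refine hGP.trans (hnum.trans ?_)
      exact mul_le_mul_of_nonneg_left hcan (by norm_num)

/-- the numerical part of THE -/
theorem the_num (U s m : ℝ) (hU : 12 / 100 < U) (hU' : U ≤ 733 / 1000) (hs : 0 ≤ s) (hm : 0 ≤ m)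
    (hsm : s + m ≤ 66 / 1000) : s / (s + (1 - U - m) ^ 2) ≤ 66 / 100 * U := by
  have hg : 0 < 1 - U - m := by linarith
  have h8 : 0 < s + (1 - U - m) ^ 2 := by positivity
  rw [div_le_iff₀ h8]
  have h1 : (934 / 1000 - U + s) ^ 2 ≤ (1 - U - m) ^ 2 := by
    apply pow_le_pow_left₀ (by linarith)
    linarith
  have h2 : s * (1 - 66 / 100 * U) ≤ 66 / 100 * U * (934 / 1000 - U + s) ^ 2 := by
    have hc : 0 ≤ U * (1 - U) ^ 2 + 66 / 1000 * U - 1 / 10 := by
      nlinarith [mul_nonneg (mul_nonneg (sub_nonneg.2 hU.le) (sub_nonneg.2 hU'))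
        (by linarith : (0 : ℝ) ≤ 1147 / 1000 - U)]
    have hs' : 0 ≤ 66 / 1000 - s := by linarith
    nlinarith [mul_nonneg hs' (mul_nonneg (by linarith : (0 : ℝ) ≤ U) hs),
      mul_nonneg hs' (sq_nonneg (U - 1 / 2)), mul_nonneg hs' (by linarith : (0 : ℝ) ≤ U),
      mul_nonneg hs' (mul_nonneg (by linarith : (0 : ℝ) ≤ U) hs')]
  have h3 : 66 / 100 * U * (934 / 1000 - U + s) ^ 2 ≤ 66 / 100 * U * (1 - U - m) ^ 2 :=
    mul_le_mul_of_nonneg_left h1 (by linarith)
  nlinarith

theorem the (hE : S_EEL) : S_THE := by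
  intro ι _ p x n hp0 hp hx hxb hm hn j
  obtain ⟨v2, hv2⟩ : ∃ v2, v2 = ∑ i, p i * (x i - 1) ^ 2 := ⟨_, rfl⟩
  obtain ⟨m1, hm1⟩ : ∃ m1, m1 = ∑ i, p i * x i := ⟨_, rfl⟩
  have hv0 : 0 ≤ v2 := by
    rw [hv2]
    exact Finset.sum_nonneg fun i _ => mul_nonneg (hp0 i) (sq_nonneg _)
  rw [← hv2, ← hm1] at hn
  rw [← hm1] at hm
  have hpos : ∀ (n : ℕ) (z : ℝ), 0 ≤ EE p x n (fun s => max (s - z) 0) := by
    intro n z
    refine le_trans (ee_one hE hp (x := x) n 0).ge ?_
    exact ee_mono hE hp0 hx _ fun s _ => le_max_right _ _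
  induction j with
  | zero =>
    intro z _ hz
    norm_num at hz
    have h1 : EE p x 0 (fun s => if z ≤ s then 1 else 0) = 0 := by
      simp only [EE]
      rw [if_neg (by linarith)]
    rw [h1]
    exact mul_nonneg (by norm_num) (hpos _ _)
  | succ j ih =>
    intro z hj hz
    push_cast at hz
    by_cases hU : (j : ℝ) + 1 + 88 / 100 ≤ z
    · have h1 : EE p x (j + 1) (fun s => if z ≤ s then 1 else 0) =
          ∑ i, p i * EE p x j (fun s => if z - x i ≤ s then 1 else 0) := by
        rw [EE]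
        refine Finset.sum_congr rfl fun i _ => ?_
        congr 2
        funext s
        congr 1
        rw [sub_le_iff_le_add]
      have h2 : EE p x (j + 1 + 1) (fun s => max (s - z) 0) =
          ∑ i, p i * EE p x (j + 1) (fun s => max (s - (z - x i)) 0) := by
        rw [EE]
        refine Finset.sum_congr rfl fun i _ => ?_
        congr 2
        funext s
        congr 1
        ring
      rw [h1, h2, Finset.mul_sum]
      refine Finset.sum_le_sum fun i _ => ?_
      by_cases hpi : p i = 0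
      · rw [hpi, zero_mul, zero_mul, mul_zero]
      · have h3 := ih (z - x i) (by omega) (by linarith [hxb i hpi])
        calc p i * EE p x j (fun s => if z - x i ≤ s then 1 else 0) ≤
            p i * (66 / 100 * EE p x (j + 1) (fun s => max (s - (z - x i)) 0)) :=
              mul_le_mul_of_nonneg_left h3 (hp0 i)
          _ = 66 / 100 * (p i * EE p x (j + 1) (fun s => max (s - (z - x i)) 0)) := by ring
    · push Not at hU
      obtain ⟨N, hN⟩ : ∃ N : ℝ, N = ((j + 1 : ℕ) : ℝ) := ⟨_, rfl⟩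
      have hN' : N = j + 1 := by rw [hN]; push_cast; ring
      have hN0 : 0 ≤ N := by rw [hN]; positivity
      have hNn : N + 1 ≤ n := by rw [hN]; exact_mod_cast hj
      obtain ⟨U, hUd⟩ : ∃ U, U = N + 1 - z := ⟨_, rfl⟩
      have hsm : N * v2 + N * (m1 - 1) ≤ 66 / 1000 := by
        have h1 : N * (v2 + (m1 - 1)) ≤ n * (v2 + (m1 - 1)) :=
          mul_le_mul_of_nonneg_right (by linarith) (by linarith)
        linarith
      have hs : 0 ≤ N * v2 := mul_nonneg hN0 hv0
      have hm' : 0 ≤ N * (m1 - 1) := mul_nonneg hN0 (by linarith)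
      have hU1 : 12 / 100 < U := by rw [hUd, hN']; linarith
      have hU2 : U ≤ 733 / 1000 := by rw [hUd, hN']; linarith
      have hnum := the_num U (N * v2) (N * (m1 - 1)) hU1 hU2 hs hm' hsm
      have hvar : N * (v2 - (m1 - 1) ^ 2) ≤ N * v2 := by
        have : 0 ≤ N * (m1 - 1) ^ 2 := mul_nonneg hN0 (sq_nonneg _)
        linarith
      have hzM : z - N * m1 = 1 - U - N * (m1 - 1) := by rw [hUd]; ring
      have hcan := cantelli hE hp0 hp hx (j + 1) (z := z) hs (by
        rw [← hv2, ← hm1, ← hN]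
        exact hvar) (by
        rw [← hm1, ← hN]
        linarith)
      rw [← hm1, ← hN, hzM] at hcan
      have hlow : U ≤ EE p x (j + 1 + 1) (fun s => max (s - z) 0) := by
        have h1 : EE p x (j + 1 + 1) (fun s => s + -z) ≤
            EE p x (j + 1 + 1) (fun s => max (s - z) 0) :=
          ee_mono hE hp0 hx _ fun s _ => le_max_left _ _
        refine le_trans ?_ h1
        rw [ee_lin hp, ← hm1]
        have h2 : (((j + 1 + 1 : ℕ) : ℝ)) = N + 1 := by rw [hN]; push_cast; ring
        rw [h2, hUd]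
        nlinarith
      refine hcan.trans (hnum.trans ?_)
      exact mul_le_mul_of_nonneg_left hlow (by norm_num)

end Pool.Agent.Q209.EM
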