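import Pool.Agent.Q54.EM.StmA

/-!
Moments of the sum and one-sided Chebyshev bounds (project EM).
-/

set_option autoImplicit false

namespace Pool.Agent.Q209.EM

open Finset
open Pool.Agent.Q54.EM

variable {ι : Type} [Fintype ι] {p x : ι → ℝ}

theorem ee_lin (hp : ∑ i, p i = 1) (n : ℕ) (b : ℝ) :
    EE p x n (fun s => s + b) = n * (∑ i, p i * x i) + b := by
  induction n generalizing b with
  | zero => simp [EE]
  | succ n ih =>
    have h1 : EE p x (n + 1) (fun s => s + b) =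
        ∑ i, p i * EE p x n (fun s => s + (x i + b)) := by
      simp only [EE]
      refine Finset.sum_congr rfl fun i _ => ?_
      congr 2
      funext s
      ring
    rw [h1]
    simp only [ih]
    have h2 : ∀ i, p i * (n * (∑ i, p i * x i) + (x i + b)) =
        p i * (n * (∑ i, p i * x i) + b) + p i * x i := fun i => by ring
    simp only [h2, Finset.sum_add_distrib, ← Finset.sum_mul, hp]
    push_cast
    ring

theorem ee_sq (hp : ∑ i, p i = 1) (n : ℕ) (b : ℝ) :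
    EE p x n (fun s => (s + b) ^ 2) =
      n * (∑ i, p i * (x i - 1) ^ 2 - (∑ i, p i * x i - 1) ^ 2) +
        (n * (∑ i, p i * x i) + b) ^ 2 := by
  obtain ⟨m, hm⟩ : ∃ m, m = ∑ i, p i * x i := ⟨_, rfl⟩
  obtain ⟨q, hq⟩ : ∃ q, q = ∑ i, p i * x i ^ 2 := ⟨_, rfl⟩
  have hv : ∑ i, p i * (x i - 1) ^ 2 = q - 2 * m + 1 := by
    have h : ∀ i, p i * (x i - 1) ^ 2 = p i * x i ^ 2 - 2 * (p i * x i) + p i := fun i => by ring
    simp only [h, Finset.sum_add_distrib, Finset.sum_sub_distrib, ← Finset.mul_sum, hp, hq, hm]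
  rw [hv, ← hm]
  induction n generalizing b with
  | zero => simp [EE]
  | succ n ih =>
    have h1 : EE p x (n + 1) (fun s => (s + b) ^ 2) =
        ∑ i, p i * EE p x n (fun s => (s + (x i + b)) ^ 2) := by
      simp only [EE]
      refine Finset.sum_congr rfl fun i _ => ?_
      congr 2
      funext s
      ring
    rw [h1]
    simp only [ih]
    have h2 : ∀ i, p i * (n * (q - 2 * m + 1 - (m - 1) ^ 2) + (n * m + (x i + b)) ^ 2) =
        p i * (n * (q - 2 * m + 1 - (m - 1) ^ 2) + (n * m + b) ^ 2) +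
          2 * (n * m + b) * (p i * x i) + p i * x i ^ 2 := fun i => by ring
    simp only [h2, Finset.sum_add_distrib, ← Finset.sum_mul, ← Finset.mul_sum, hp, ← hm, ← hq]
    push_cast
    ring

theorem ee_one (hE : S_EEL) (hp : ∑ i, p i = 1) (n : ℕ) (c : ℝ) :
    EE p x n (fun _ => c) = c := (hE ι p x n).2.2.2.2.1 hp c

theorem ee_mono (hE : S_EEL) (hp0 : ∀ i, 0 ≤ p i) (hx : ∀ i, 0 ≤ x i) (n : ℕ) {f g : ℝ → ℝ}
    (h : ∀ s, 0 ≤ s → f s ≤ g s) : EE p x n f ≤ EE p x n g := (hE ι p x n).2.2.2.1 hp0 hx f g h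

theorem ee_smul (hE : S_EEL) (n : ℕ) (c : ℝ) (f : ℝ → ℝ) :
    EE p x n (fun s => c * f s) = c * EE p x n f := (hE ι p x n).2.2.1 c f

theorem ee_add (hE : S_EEL) (n : ℕ) (f g : ℝ → ℝ) :
    EE p x n (fun s => f s + g s) = EE p x n f + EE p x n g := (hE ι p x n).1 f g

theorem ee_sub (hE : S_EEL) (n : ℕ) (f g : ℝ → ℝ) :
    EE p x n (fun s => f s - g s) = EE p x n f - EE p x n g := (hE ι p x n).2.1 f g

/-- Cantelli, upper tail: with mean `M` and variance at most `V`, for `M < z`. -/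
theorem cantelli (hE : S_EEL) (hp0 : ∀ i, 0 ≤ p i) (hp : ∑ i, p i = 1) (hx : ∀ i, 0 ≤ x i) (n : ℕ)
    {z V : ℝ} (hV0 : 0 ≤ V)
    (hV : n * (∑ i, p i * (x i - 1) ^ 2 - (∑ i, p i * x i - 1) ^ 2) ≤ V)
    (hz : n * (∑ i, p i * x i) < z) :
    EE p x n (fun s => if z ≤ s then 1 else 0) ≤
      V / (V + (z - n * (∑ i, p i * x i)) ^ 2) := by
  obtain ⟨g, hg⟩ : ∃ g, g = z - n * (∑ i, p i * x i) := ⟨_, rfl⟩
  have hg0 : 0 < g := by rw [hg]; linarith
  rw [← hg]
  have ha : 0 < g + V / g := by positivity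
  have h1 : EE p x n (fun s => if z ≤ s then 1 else 0) ≤
      EE p x n (fun s => ((g + V / g) ^ 2)⁻¹ * (s + (g + V / g - z)) ^ 2) := by
    refine ee_mono hE hp0 hx n fun s _ => ?_
    split_ifs with h
    · have h2 : (g + V / g) ^ 2 ≤ (s + (g + V / g - z)) ^ 2 := by
        apply pow_le_pow_left₀ ha.le
        linarith
      rw [inv_mul_eq_div, le_div_iff₀ (by positivity), one_mul]
      exact h2
    · positivity
  refine h1.trans ?_
  rw [ee_smul hE, ee_sq hp]
  have h2 : n * (∑ i, p i * x i) + (g + V / g - z) = V / g := by rw [hg]; ring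
  rw [h2]
  have h3 : (n * (∑ i, p i * (x i - 1) ^ 2 - (∑ i, p i * x i - 1) ^ 2) + (V / g) ^ 2) ≤
      V + (V / g) ^ 2 := by linarith
  have h4 : ((g + V / g) ^ 2)⁻¹ * (V + (V / g) ^ 2) = V / (V + g ^ 2) := by
    have h5 : g ^ 2 + V ≠ 0 := by positivity
    have h6 : g ≠ 0 := hg0.ne'
    have h7 : g + V / g = (g ^ 2 + V) / g := by field_simp
    rw [h7]
    field_simp
    ring
  rw [← h4]
  exact mul_le_mul_of_nonneg_left h3 (by positivity)

/-- Cantelli, lower tail: with mean `M` and variance at most `V`, for `M < y`. -/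
theorem cantelli' (hE : S_EEL) (hp0 : ∀ i, 0 ≤ p i) (hp : ∑ i, p i = 1) (hx : ∀ i, 0 ≤ x i) (n : ℕ)
    {y V : ℝ} (hV0 : 0 ≤ V)
    (hV : n * (∑ i, p i * (x i - 1) ^ 2 - (∑ i, p i * x i - 1) ^ 2) ≤ V)
    (hy : n * (∑ i, p i * x i) < y) :
    (y - n * (∑ i, p i * x i)) ^ 2 / (V + (y - n * (∑ i, p i * x i)) ^ 2) ≤ PR p x n y := by
  have h1 := cantelli hE hp0 hp hx n hV0 hV hy
  have h2 : PR p x n y = 1 - EE p x n (fun s => if y ≤ s then 1 else 0) := by
    rw [eq_sub_iff_add_eq]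
    unfold PR
    rw [← ee_add hE]
    refine Eq.trans ?_ (ee_one hE hp (x := x) n 1)
    congr 1
    funext s
    by_cases h : s < y
    · rw [if_pos h, if_neg (not_le.2 h), add_zero]
    · rw [if_neg h, if_pos (not_lt.1 h), zero_add]
  rw [h2]
  have h3 : (y - n * (∑ i, p i * x i)) ^ 2 / (V + (y - n * (∑ i, p i * x i)) ^ 2) =
      1 - V / (V + (y - n * (∑ i, p i * x i)) ^ 2) := by
    have h4 : 0 < y - n * (∑ i, p i * x i) := by linarith
    have h5 : V + (y - n * (∑ i, p i * x i)) ^ 2 ≠ 0 := by positivity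
    field_simp
    ring
  rw [h3]
  linarith

end Pool.Agent.Q209.EM
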